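import Mathlib

/-!
Bent `g, h` on `F_2^8` with `g + h` bent and `(g+h)^* = g^* + h^*` for which the incidence matrix
of `D_{g,h}` has smaller 2-rank than that of the translation design of `h`.
`g(x,y) = x.y`, `h(x,y) = x.p(y)`, where `p` multiplies by `w` on some `F_4`-lines of `F_4^2`
and by `w^2` on the others.
-/

set_option maxRecDepth 100000

namespace Pool.Agent.Results.MP_52c3fe_co.Counter

open Finset Matrix

/-- `F_2^m`. -/
abbrev V (m : ℕ) : Type := Fin m → ZMod 2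

/-- Walsh transform `W_f(u) = ∑ x, (-1)^(f(x) + u.x)`. -/
def W {m : ℕ} (f : V m → ZMod 2) (u : V m) : ℤ := ∑ x : V m, (-1) ^ (f x + u ⬝ᵥ x).val

/-- Bent: `|W_f(u)| = 2^(m/2)` for all `u`. -/
def Bent {m : ℕ} (f : V m → ZMod 2) : Prop := ∀ u, |W f u| = 2 ^ (m / 2)

/-- The dual of a bent function: `W_f(u) = 2^(m/2) (-1)^(f^*(u))`. -/
def dual {m : ℕ} (f : V m → ZMod 2) (u : V m) : ZMod 2 := if W f u = 2 ^ (m / 2) then 0 else 1

/-- Incidence matrix of `D_{g,h}`: entry `(b, x)` is `f_b(x) = g(b) + h(x+b) + (g+h)(x)`. -/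
def M {m : ℕ} (g h : V m → ZMod 2) : Matrix (V m) (V m) (ZMod 2) :=
  Matrix.of fun b x => g b + h (x + b) + (g + h) x

/-- Incidence matrix of the translation design of `h`: entry `(x, y)` is `h(x+y)`. -/
def N {m : ℕ} (h : V m → ZMod 2) : Matrix (V m) (V m) (ZMod 2) :=
  Matrix.of fun x y => h (x + y)

def X (z : V 8) : V 4 := ![z 0, z 1, z 2, z 3]
def Y (z : V 8) : V 4 := ![z 4, z 5, z 6, z 7]
def J (x y : V 4) : V 8 := ![x 0, x 1, x 2, x 3, y 0, y 1, y 2, y 3]

lemma X_J (x y : V 4) : X (J x y) = x := by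
  funext i; fin_cases i <;> rfl
lemma Y_J (x y : V 4) : Y (J x y) = y := by
  funext i; fin_cases i <;> rfl
lemma J_XY (z : V 8) : J (X z) (Y z) = z := by
  funext i; fin_cases i <;> rfl
lemma J_add (x y x' y' : V 4) : J x y + J x' y' = J (x + x') (y + y') := by
  funext i; fin_cases i <;> rfl
lemma dot_J (u : V 8) (x y : V 4) : u ⬝ᵥ J x y = X u ⬝ᵥ x + Y u ⬝ᵥ y := by
  simp [dotProduct, Fin.sum_univ_succ, J, X, Y]
  ring

def E : V 4 × V 4 ≃ V 8 where
  toFun p := J p.1 p.2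
  invFun z := (X z, Y z)
  left_inv p := by simp [X_J, Y_J]
  right_inv z := J_XY z

def dec (n : ℕ) : V 4 := fun i => if n.testBit i then 1 else 0
def enc (v : V 4) : ℕ := (v 0).val + 2 * (v 1).val + 4 * (v 2).val + 8 * (v 3).val
def p0 (y : V 4) : V 4 :=
  dec ([0, 2, 3, 1, 8, 15, 13, 14, 12, 7, 5, 6, 4, 11, 9, 10].getD (enc y) 0)
def th (y : V 4) : V 4 := y + p0 y

lemma all4 (P : V 4 → Prop) (h : ∀ n : Fin 16, P (dec n)) (v : V 4) : P v := by
  have h1 : ∀ a b c d : ZMod 2, ∃ n : Fin 16, dec n = ![a, b, c, d] := by decide +kernel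
  obtain ⟨n, hn⟩ := h1 (v 0) (v 1) (v 2) (v 3)
  have : v = dec n := by
    rw [hn]; funext i; fin_cases i <;> rfl
  exact this ▸ h n

lemma p0_th (w : V 4) : p0 (th w) = w ∧ th (p0 w) = w :=
  all4 (fun w => p0 (th w) = w ∧ th (p0 w) = w) (by decide +kernel) w

def sgn (a : ZMod 2) : ℤ := (-1) ^ a.val
lemma sgn_add (a b : ZMod 2) : sgn (a + b) = sgn a * sgn b := by
  revert a b; decide
lemma inner (w : V 4) : ∑ x : V 4, sgn (x ⬝ᵥ w) = if w = 0 then 16 else 0 :=
  all4 (fun w => ∑ x : V 4, sgn (x ⬝ᵥ w) = if w = 0 then 16 else 0) (by decide +kernel) w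
lemma two (v : V 4) : v + v = 0 := by
  funext i; exact CharTwo.add_self_eq_zero (v i)

def mm (p : V 4 → V 4) (z : V 8) : ZMod 2 := X z ⬝ᵥ p (Y z)

lemma W_mm (p q : V 4 → V 4) (hpq : ∀ w, p (q w) = w) (hqp : ∀ w, q (p w) = w) (u : V 8) :
    W (mm p) u = 16 * sgn (Y u ⬝ᵥ q (X u)) := by
  unfold W
  rw [← E.sum_comp, Fintype.sum_prod_type_right]
  have h1 : ∀ x y : V 4, (-1 : ℤ) ^ (mm p (E (x, y)) + u ⬝ᵥ E (x, y)).val =
      sgn (x ⬝ᵥ (p y + X u)) * sgn (Y u ⬝ᵥ y) := by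
    intro x y
    rw [← sgn_add]
    change sgn (mm p (J x y) + u ⬝ᵥ J x y) = _
    congr 1
    rw [dot_J, mm, X_J, Y_J, dotProduct_add, dotProduct_comm (X u) x, add_assoc]
  simp only [h1, ← Finset.sum_mul, inner]
  rw [Finset.sum_eq_single (q (X u))]
  · rw [hpq, two]; simp
  · intro y _ hy
    have : p y + X u ≠ 0 := by
      intro h
      apply hy
      have : p y = X u := by
        calc p y = p y + (X u + X u) := by rw [two, add_zero]
          _ = X u := by rw [← add_assoc, h, zero_add]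
      rw [← this, hqp]
    simp [this]
  · simp

lemma bent_mm (p q : V 4 → V 4) (hpq : ∀ w, p (q w) = w) (hqp : ∀ w, q (p w) = w) :
    Bent (mm p) := by
  intro u
  rw [W_mm p q hpq hqp]
  generalize Y u ⬝ᵥ q (X u) = a
  revert a; decide

lemma dual_mm (p q : V 4 → V 4) (hpq : ∀ w, p (q w) = w) (hqp : ∀ w, q (p w) = w) (u : V 8) :
    dual (mm p) u = Y u ⬝ᵥ q (X u) := by
  unfold dual
  rw [W_mm p q hpq hqp]
  generalize Y u ⬝ᵥ q (X u) = a
  revert a; decide

lemma sum_mm : mm id + mm p0 = mm th := by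
  funext z
  simp [mm, th, dotProduct_add]

lemma mm_J (p : V 4 → V 4) (x y : V 4) : mm p (J x y) = x ⬝ᵥ p y := by
  rw [mm, X_J, Y_J]

def r (b : V 8) : V 8 → ZMod 2 := fun x => mm p0 (b + x)

lemma all8 (P : V 8 → Prop) (h : ∀ a b : Fin 16, P (J (dec a) (dec b))) (z : V 8) : P z := by
  rw [← J_XY z]
  exact all4 (fun x => P (J x (Y z))) (fun a => all4 (fun y => P (J (dec a) y)) (h a) _) _

lemma g_eq : mm id = r (J 0 (dec 1)) + r (J 0 (dec 2)) + r (J 0 (dec 3)) + r (J 0 (dec 4)) +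
    r (J 0 (dec 8)) + r (J 0 (dec 12)) := by
  funext z
  refine all8 (fun z => mm id z = (r (J 0 (dec 1)) + r (J 0 (dec 2)) + r (J 0 (dec 3)) +
    r (J 0 (dec 4)) + r (J 0 (dec 8)) + r (J 0 (dec 12))) z) ?_ z
  simp only [r, Pi.add_apply, J_add, mm_J]
  decide +kernel

lemma one_eq : (fun _ => 1 : V 8 → ZMod 2) = r (J 0 0) + r (J (dec 2) 0) + r (J 0 (dec 1)) +
    r (J (dec 2) (dec 1)) := by
  funext z
  refine all8 (fun z => (1 : ZMod 2) = (r (J 0 0) + r (J (dec 2) 0) + r (J 0 (dec 1)) +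
    r (J (dec 2) (dec 1))) z) ?_ z
  simp only [r, Pi.add_apply, J_add, mm_J]
  decide +kernel

def pt (k : Fin 16) : V 8 := J (dec (4 * (k / 8))) (dec (k % 8))

noncomputable def phi : (V 8 → ZMod 2) →ₗ[ZMod 2] ZMod 2 :=
  ∑ k : Fin 16, LinearMap.proj (pt k)

lemma phi_apply (f : V 8 → ZMod 2) : phi f = ∑ k : Fin 16, f (pt k) := by
  simp [phi, LinearMap.sum_apply]

lemma phi_r (b : V 8) : phi (r b) = 1 := by
  refine all8 (fun b => phi (r b) = 1) ?_ b
  simp only [phi_apply, r, pt, J_add, mm_J]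
  decide +kernel

lemma rank_lt : (M (mm id) (mm p0)).rank < (N (mm p0)).rank := by
  rw [Matrix.rank_eq_finrank_span_row, Matrix.rank_eq_finrank_span_row]
  apply Submodule.finrank_lt_finrank_of_lt
  set S := Submodule.span (ZMod 2) (Set.range (N (mm p0)).row) with hS
  have hr : ∀ b, r b ∈ S := fun b => Submodule.subset_span ⟨b, rfl⟩
  have h2 : ∀ b c, r b + r c ∈ S ⊓ LinearMap.ker phi := by
    intro b c
    refine Submodule.mem_inf.2 ⟨S.add_mem (hr _) (hr _), ?_⟩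
    rw [LinearMap.mem_ker, map_add, phi_r, phi_r]; decide
  have hg : mm id ∈ S ⊓ LinearMap.ker phi := by
    rw [g_eq, add_assoc, add_assoc (r (J 0 (dec 1)) + r (J 0 (dec 2)))]
    exact Submodule.add_mem _ (Submodule.add_mem _ (h2 _ _) (h2 _ _)) (h2 _ _)
  have h1 : (fun _ => 1 : V 8 → ZMod 2) ∈ S ⊓ LinearMap.ker phi := by
    rw [one_eq, add_assoc]
    exact Submodule.add_mem _ (h2 _ _) (h2 _ _)
  refine lt_of_le_of_lt (b := S ⊓ LinearMap.ker phi) ?_ ?_
  · rw [Submodule.span_le]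
    rintro _ ⟨b, rfl⟩
    have : (M (mm id) (mm p0)).row b =
        mm id b • (fun _ => 1 : V 8 → ZMod 2) + (r b + r 0) + mm id := by
      funext x
      simp only [M, Matrix.row, Matrix.of_apply, Pi.add_apply, Pi.smul_apply, smul_eq_mul,
        mul_one, r, zero_add, add_comm x b]
      ring
    rw [this]
    exact Submodule.add_mem _ (Submodule.add_mem _ (Submodule.smul_mem _ _ h1) (h2 b 0)) hg
  · refine lt_of_le_of_ne inf_le_left fun h => ?_
    have h3 : r 0 ∈ S ⊓ LinearMap.ker phi := by rw [h]; exact hr 0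
    have h4 : phi (r 0) = 0 := LinearMap.mem_ker.1 (Submodule.mem_inf.1 h3).2
    rw [phi_r] at h4
    exact absurd h4 (by decide)

theorem result :
    (∃ g h : V 8 → ZMod 2, Bent g ∧ Bent h ∧ Bent (g + h) ∧ dual (g + h) = dual g + dual h ∧
      (M g h).rank < (N h).rank) ∧
    ¬ ∀ (m : ℕ), Even m → 0 < m → ∀ g h : V m → ZMod 2, Bent g → Bent h → Bent (g + h) →
      dual (g + h) = dual g + dual h → (M g h).rank = (N h).rank := by
  have b1 : Bent (mm id) := bent_mm id id (fun _ => rfl) (fun _ => rfl)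
  have b2 : Bent (mm p0) := bent_mm p0 th (fun w => (p0_th w).1) (fun w => (p0_th w).2)
  have b3 : Bent (mm id + mm p0) := by
    rw [sum_mm]; exact bent_mm th p0 (fun w => (p0_th w).2) (fun w => (p0_th w).1)
  have d : dual (mm id + mm p0) = dual (mm id) + dual (mm p0) := by
    funext u
    rw [sum_mm, Pi.add_apply, dual_mm th p0 (fun w => (p0_th w).2) (fun w => (p0_th w).1),
      dual_mm id id (fun _ => rfl) (fun _ => rfl),
      dual_mm p0 th (fun w => (p0_th w).1) (fun w => (p0_th w).2), ← dotProduct_add, th, id,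
      ← add_assoc, two, zero_add]
  refine ⟨⟨_, _, b1, b2, b3, d, rank_lt⟩, fun h => ?_⟩
  exact absurd (h 8 (by decide) (by norm_num) _ _ b1 b2 b3 d) rank_lt.ne

end Pool.Agent.Results.MP_52c3fe_co.Counter
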